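import Pool.Agent.X262.PAL.RC1
import Pool.Agent.W89.PW.Count
import Pool.Agent.W139.PX.F4

/-!
# Counting almost prime palindromes in residue classes
-/

set_option autoImplicit false

namespace Pool.Agent.X262.PAL

open Finset Filter Topology Pool.Agent.W89.PW Pool.Agent.W261.PWBV Pool.Agent.W139.PX

open Classical in
/-- sparse digit vectors -/
theorem almostEM {b s t r : ℕ} (hb : 3 ≤ b) (hs : 2 ≤ s) (hst : s ≤ t) (hbst : s + t = b + 1) {κ κ' lam : ℝ}
    (hκ0 : 0 < κ) (hκκ' : κ < κ') (hκ : (b : ℝ) ^ κ' * HH s t < 1) (hm4 : (b : ℝ) * m4 s t < 1)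
    (hl0 : 0 < lam) (hl1 : lam ≤ 1)
    (hlam : lam * (1174 / 1000) < 994 / 1000) (hr : 1 / lam + 88 / (43 * κ) < r + 1)
    (M : ℕ) (hM0 : 0 < M) (hM : M.Coprime (2 * b)) :
    ∃ c : ℝ, 0 < c ∧ ∀ᶠ L : ℕ in atTop, ∀ h : ℕ, h.Coprime M →
      c * (((s : ℝ) * t) ^ 2 / (Eset s t).card) ^ L / (L : ℝ) ^ 2 ≤
      (((range (b ^ (2 * L + 3))).filter (fun n => PlP b r κ L n ∧ n ≡ h [MOD M])).card : ℝ) := by
  have hb1 : (1 : ℝ) < b := by exact_mod_cast (by omega : 1 < b)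
  have hκ'1 : κ' < 1 := kappa_lt_one hb (by omega) (by omega) hbst hκ
  have hκ1 : κ < 1 := hκκ'.trans hκ'1
  have hκs : (b : ℝ) ^ κ * HH s t < 1 := by
    refine lt_of_le_of_lt ?_ hκ
    exact mul_le_mul_of_nonneg_right (Real.rpow_le_rpow_of_exponent_le hb1.le hκκ'.le)
      (HH_pos (by omega)).le
  have hBig : BigW b s t κ' := Pool.Agent.W822.PWBig.main Pool.Agent.W880.PW.mainG Pool.Agent.W342.PW2.mainLS
    b s t hb (by omega) (by omega) hbst hm4 κ' (hκ0.trans hκκ') hκ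
  have hPt : PtW b s t := Pool.Agent.W571.PW.Pt.main b s t (by omega) hs (by omega) hbst
  have hSq : SqW b s t κ := Pool.Agent.W809.PWSqr.main Pool.Agent.W880.PW.mainGsq
    Pool.Agent.W342.PW2.mainSq4 b s t hb (by omega) (by omega) hbst hm4 κ hκ0 hκs
  obtain ⟨c, hc0, hc⟩ := almostGM (r := r) (by omega) (by omega) (by omega) hbst hκ0 hκ1 hκκ'
    (lvl (by omega) hPt (hκ0.trans hκκ') hκ'1 hBig 3) hSq hl0 hl1 hlam hr M hM0 hM
  refine ⟨c ^ 2, by positivity, ?_⟩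
  filter_upwards [hc, eventually_ge_atTop 1] with L hcL hL
  intro h hhM
  obtain ⟨G, hG1, hG2⟩ := hcL h hhM
  have hL0 : (0 : ℝ) < L := by exact_mod_cast hL
  have hs0 : (0 : ℝ) < s := by exact_mod_cast (by omega : 0 < s)
  have ht0 : (0 : ℝ) < t := by exact_mod_cast (by omega : 0 < t)
  have hE : 0 < (Eset s t).card := by
    apply card_pos.2
    refine ⟨((⟨0, by omega⟩, ⟨0, by omega⟩), (⟨0, by omega⟩, ⟨0, by omega⟩)), ?_⟩
    unfold Eset
    simp
  have hER : (0 : ℝ) < (Eset s t).card := by exact_mod_cast hE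
  have h1 := card_sq_le (b := b) hb hbst G
  have h2 : (G.image (pv b s t L)).card ≤
      ((range (b ^ (2 * L + 3))).filter (fun n => PlP b r κ L n ∧ n ≡ h [MOD M])).card := by
    apply card_le_card
    intro n hn
    rw [mem_image] at hn
    obtain ⟨m, hm, rfl⟩ := hn
    rw [mem_filter, mem_range]
    exact ⟨(hG2 m hm).1.2.1, hG2 m hm⟩
  have h3 : (G.card : ℝ) ^ 2 ≤
      (((range (b ^ (2 * L + 3))).filter (fun n => PlP b r κ L n ∧ n ≡ h [MOD M])).card : ℝ) *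
      ((Eset s t).card : ℝ) ^ L := by
    have : G.card ^ 2 ≤ ((range (b ^ (2 * L + 3))).filter (fun n => PlP b r κ L n ∧ n ≡ h [MOD M])).card *
        (Eset s t).card ^ L := h1.trans (Nat.mul_le_mul_right _ h2)
    exact_mod_cast this
  have h4 : (c * ((s : ℝ) * t) ^ L / L) ^ 2 ≤ (G.card : ℝ) ^ 2 := pow_le_pow_left₀ (by positivity) hG1 2
  have h5 := h4.trans h3
  rw [← div_le_iff₀ (by positivity)] at h5
  refine le_trans (le_of_eq ?_) h5
  rw [div_pow ((((s : ℝ) * t) ^ 2)), ← pow_mul, mul_comm 2 L, pow_mul]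
  field_simp

open Classical in
/-- the same with digit number `2 N + 1` and a clean exponential lower bound -/
theorem almostNM {b s t r : ℕ} (hb : 3 ≤ b) (hs : 2 ≤ s) (hst : s ≤ t) (hbst : s + t = b + 1) {κ κ' lam : ℝ}
    (hκ0 : 0 < κ) (hκκ' : κ < κ') (hκ : (b : ℝ) ^ κ' * HH s t < 1) (hm4 : (b : ℝ) * m4 s t < 1)
    (hl0 : 0 < lam) (hl1 : lam ≤ 1)
    (hlam : lam * (1174 / 1000) < 994 / 1000) (hr : 1 / lam + 88 / (43 * κ) < r + 1)
    {B η : ℝ} (hB : 1 ≤ B) (hBE : B < ((s : ℝ) * t) ^ 2 / (Eset s t).card) (hη : η < κ / 6)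
    (M : ℕ) (hM0 : 0 < M) (hM : M.Coprime (2 * b)) :
    ∀ᶠ N : ℕ in atTop, ∀ h : ℕ, h.Coprime M →
      B ^ N ≤ (((range (b ^ (2 * N + 1))).filter (fun n => b ^ (2 * N) ≤ n ∧
      (Nat.digits b n).reverse = Nat.digits b n ∧ n.primeFactorsList.length ≤ r ∧
      (∀ p ∈ n.primeFactorsList, (b : ℝ) ^ (η * N) < p) ∧ n ≡ h [MOD M])).card : ℝ) := by
  obtain ⟨c, hc0, hc⟩ := almostEM (r := r) hb hs hst hbst hκ0 hκκ' hκ hm4 hl0 hl1 hlam hr M hM0 hM
  set A : ℝ := ((s : ℝ) * t) ^ 2 / (Eset s t).card with hA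
  have hA0 : 0 < A := by linarith
  -- the exponential beats the square
  have h1 : ∀ᶠ L : ℕ in atTop, (L : ℝ) ^ 2 * (B / A) ^ L < c / B := by
    have h2 := tendsto_pow_const_mul_const_pow_of_abs_lt_one 2 (r := B / A) (by
      rw [abs_of_pos (by positivity), div_lt_one hA0]
      exact hBE)
    exact h2.eventually (gt_mem_nhds (by positivity))
  have h2 : ∀ᶠ L : ℕ in atTop, η ≤ (κ / 6 - η) * (L : ℝ) :=
    ((tendsto_natCast_atTop_atTop (R := ℝ)).const_mul_atTop (by linarith)).eventually_ge_atTop _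
  have h3 : ∀ᶠ L : ℕ in atTop, ∀ h : ℕ, h.Coprime M → B ^ (L + 1) ≤ (((range (b ^ (2 * (L + 1) + 1))).filter
      (fun n => b ^ (2 * (L + 1)) ≤ n ∧
      (Nat.digits b n).reverse = Nat.digits b n ∧ n.primeFactorsList.length ≤ r ∧
      (∀ p ∈ n.primeFactorsList, (b : ℝ) ^ (η * ((L + 1 : ℕ) : ℝ)) < p) ∧ n ≡ h [MOD M])).card : ℝ) := by
    filter_upwards [hc, h1, h2, eventually_ge_atTop 1] with L h4' h5 h6 h7
    intro h hhM
    have h4 := h4' h hhM
    have hL0 : (0 : ℝ) < L := by exact_mod_cast h7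
    have hsub : (range (b ^ (2 * L + 3))).filter (fun n => PlP b r κ L n ∧ n ≡ h [MOD M]) ⊆
        (range (b ^ (2 * (L + 1) + 1))).filter (fun n => b ^ (2 * (L + 1)) ≤ n ∧
        (Nat.digits b n).reverse = Nat.digits b n ∧ n.primeFactorsList.length ≤ r ∧
        (∀ p ∈ n.primeFactorsList, (b : ℝ) ^ (η * ((L + 1 : ℕ) : ℝ)) < p) ∧ n ≡ h [MOD M]) := by
      intro n hn
      rw [mem_filter, mem_range] at hn ⊢
      obtain ⟨h8, ⟨h9, h10, h11, h12, h13⟩, h14⟩ := hn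
      refine ⟨by rwa [show 2 * (L + 1) + 1 = 2 * L + 3 by ring], by rwa [show 2 * (L + 1) = 2 * L + 2 by ring],
        h11, h12, fun p hp => lt_of_le_of_lt ?_ (h13 p hp), h14⟩
      apply Real.rpow_le_rpow_of_exponent_le (by exact_mod_cast (by omega : 1 ≤ b))
      push_cast
      linarith
    refine le_trans ?_ (h4.trans (by exact_mod_cast card_le_card hsub))
    have hBA : (B / A) ^ L = B ^ L / A ^ L := div_pow _ _ _
    rw [hBA] at h5
    have hAL : 0 < A ^ L := by positivity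
    have hB0 : 0 < B := by linarith
    rw [lt_div_iff₀ hB0] at h5
    have h8 : (L : ℝ) ^ 2 * (B ^ L / A ^ L) * B = (L : ℝ) ^ 2 * B ^ (L + 1) / A ^ L := by
      rw [pow_succ]; ring
    rw [h8, div_lt_iff₀ hAL] at h5
    rw [le_div_iff₀ (by positivity)]
    linarith
  rw [eventually_atTop] at h3 ⊢
  obtain ⟨L0, hL0⟩ := h3
  refine ⟨L0 + 1, fun N hN => ?_⟩
  obtain ⟨L, rfl⟩ : ∃ L, N = L + 1 := ⟨N - 1, by omega⟩
  exact hL0 L (by omega)

open Classical in
/-- the right order of magnitude for uniform digits -/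
theorem unifNM {b r : ℕ} (hb : 2 ≤ b) {H CM κ κ' lam η : ℝ} (hMaj : MajP b b 1 H CM) (hH0 : 0 < H)
    (hHb : 1 ≤ b * H) (hCM : 0 < CM) (hm4 : (b : ℝ) * m4 b 1 < 1) (hκ0 : 0 < κ) (hκκ' : κ < κ')
    (hκH : (b : ℝ) ^ κ' * H < 1)
    (hl0 : 0 < lam) (hl1 : lam ≤ 1)
    (hlam : lam * (1174 / 1000) < 994 / 1000) (hr : 1 / lam + 88 / (43 * κ) < r + 1) (hη : η < κ / 6)
    (M : ℕ) (hM0 : 0 < M) (hM : M.Coprime (2 * b)) :
    ∃ c : ℝ, 0 < c ∧ ∀ᶠ N : ℕ in atTop, ∀ h : ℕ, h.Coprime M →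
      c * (b : ℝ) ^ N / N ≤ (((range (b ^ (2 * N + 1))).filter (fun n =>
      b ^ (2 * N) ≤ n ∧
      (Nat.digits b n).reverse = Nat.digits b n ∧ n.primeFactorsList.length ≤ r ∧
      (∀ p ∈ n.primeFactorsList, (b : ℝ) ^ (η * N) < p) ∧ n ≡ h [MOD M])).card : ℝ) := by
  have hb1 : (1 : ℝ) < b := by exact_mod_cast (by omega : 1 < b)
  have hb0 : (0 : ℝ) < b := by linarith
  have hκ'1 : κ' < 1 := by
    by_contra hcon
    push Not at hcon
    have h1 : (b : ℝ) ≤ (b : ℝ) ^ κ' := by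
      calc (b : ℝ) = (b : ℝ) ^ (1 : ℝ) := (Real.rpow_one _).symm
        _ ≤ _ := Real.rpow_le_rpow_of_exponent_le hb1.le hcon
    have h2 : (b : ℝ) * H ≤ (b : ℝ) ^ κ' * H := mul_le_mul_of_nonneg_right h1 hH0.le
    linarith
  have hκ1 : κ < 1 := hκκ'.trans hκ'1
  have hκs : (b : ℝ) ^ κ * H < 1 := by
    refine lt_of_le_of_lt ?_ hκH
    exact mul_le_mul_of_nonneg_right (Real.rpow_le_rpow_of_exponent_le hb1.le hκκ'.le) hH0.le
  have hPt : PtW b b 1 := Pool.Agent.W571.PW.Pt.main b b 1 hb hb le_rfl rfl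
  have hBig : BigW b b 1 κ' := bigW_of_majP hb (by omega) le_rfl rfl hm4 hMaj hH0 hHb hCM
    (hκ0.trans hκκ') hκH
  have hSq : SqW b b 1 κ := sqW_of_majP hMaj hH0 hHb hCM hb (by omega) le_rfl rfl hm4 hκ0 hκs
  obtain ⟨c, hc0, hc⟩ := almostGM (r := r) hb (by omega) le_rfl rfl hκ0 hκ1 hκκ'
    (lvl hb hPt (hκ0.trans hκκ') hκ'1 hBig 3) hSq hl0 hl1 hlam hr M hM0 hM
  refine ⟨c / b, by positivity, ?_⟩
  have h2 : ∀ᶠ L : ℕ in atTop, η ≤ (κ / 6 - η) * (L : ℝ) :=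
    ((tendsto_natCast_atTop_atTop (R := ℝ)).const_mul_atTop (by linarith)).eventually_ge_atTop _
  have h3 : ∀ᶠ L : ℕ in atTop, ∀ h : ℕ, h.Coprime M →
      c / b * (b : ℝ) ^ (L + 1) / ((L + 1 : ℕ) : ℝ) ≤
      (((range (b ^ (2 * (L + 1) + 1))).filter
      (fun n => b ^ (2 * (L + 1)) ≤ n ∧
      (Nat.digits b n).reverse = Nat.digits b n ∧ n.primeFactorsList.length ≤ r ∧
      (∀ p ∈ n.primeFactorsList, (b : ℝ) ^ (η * ((L + 1 : ℕ) : ℝ)) < p) ∧ n ≡ h [MOD M])).card : ℝ) := by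
    filter_upwards [hc, h2, eventually_ge_atTop 1] with L hcL h6 h7
    intro h hhM
    obtain ⟨G, hG1, hG2⟩ := hcL h hhM
    have hL0 : (0 : ℝ) < L := by exact_mod_cast h7
    have hcard : (G.image (pv b b 1 L)).card = G.card := card_image_of_injective _ (pv_inj_unif hb)
    have hsub : G.image (pv b b 1 L) ⊆
        (range (b ^ (2 * (L + 1) + 1))).filter (fun n => b ^ (2 * (L + 1)) ≤ n ∧
        (Nat.digits b n).reverse = Nat.digits b n ∧ n.primeFactorsList.length ≤ r ∧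
        (∀ p ∈ n.primeFactorsList, (b : ℝ) ^ (η * ((L + 1 : ℕ) : ℝ)) < p) ∧ n ≡ h [MOD M]) := by
      intro n hn
      rw [mem_image] at hn
      obtain ⟨m, hm, rfl⟩ := hn
      rw [mem_filter, mem_range]
      obtain ⟨⟨h9, h10, h11, h12, h13⟩, h14⟩ := hG2 m hm
      refine ⟨by rwa [show 2 * (L + 1) + 1 = 2 * L + 3 by ring], by rwa [show 2 * (L + 1) = 2 * L + 2 by ring],
        h11, h12, fun p hp => lt_of_le_of_lt ?_ (h13 p hp), h14⟩
      apply Real.rpow_le_rpow_of_exponent_le hb1.le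
      push_cast
      linarith
    have h8 : (G.card : ℝ) ≤ (((range (b ^ (2 * (L + 1) + 1))).filter
      (fun n => b ^ (2 * (L + 1)) ≤ n ∧
      (Nat.digits b n).reverse = Nat.digits b n ∧ n.primeFactorsList.length ≤ r ∧
      (∀ p ∈ n.primeFactorsList, (b : ℝ) ^ (η * ((L + 1 : ℕ) : ℝ)) < p) ∧ n ≡ h [MOD M])).card : ℝ) := by
      rw [← hcard]
      exact_mod_cast card_le_card hsub
    refine le_trans ?_ (hG1.trans h8)
    rw [Nat.cast_one, mul_one]
    have e : c / b * (b : ℝ) ^ (L + 1) = c * (b : ℝ) ^ L := by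
      rw [pow_succ]; field_simp
    rw [e]
    apply div_le_div_of_nonneg_left (by positivity) hL0
    push_cast
    linarith
  rw [eventually_atTop] at h3 ⊢
  obtain ⟨L0, hL0⟩ := h3
  refine ⟨L0 + 1, fun N hN => ?_⟩
  obtain ⟨L, rfl⟩ : ∃ L, N = L + 1 := ⟨N - 1, by omega⟩
  exact hL0 L (by omega)

open Classical in
/-- every base, right order of magnitude -/
theorem finUM {b : ℕ} (hb : 2 ≤ b) (M : ℕ) (hM0 : 0 < M) (hM : M.Coprime (2 * b)) :
    ∃ c : ℝ, 0 < c ∧ ∀ᶠ N : ℕ in atTop, ∀ h : ℕ, h.Coprime M → c * (b : ℝ) ^ N / N ≤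
    (((range (b ^ (2 * N + 1))).filter (fun n => b ^ (2 * N) ≤ n ∧
      (Nat.digits b n).reverse = Nat.digits b n ∧
      n.primeFactorsList.length ≤ (if 1000 ≤ b then 3 else if 64 ≤ b then 4 else 5) ∧
      (∀ p ∈ n.primeFactorsList, (b : ℝ) ^ ((1 / 13) * (N : ℝ)) < p) ∧ n ≡ h [MOD M])).card : ℝ) := by
  rcases lt_or_ge b 64 with hb' | hb'
  · rw [if_neg (by omega), if_neg (by omega)]
    have hbR : (2 : ℝ) ≤ b := by exact_mod_cast hb
    have hb0 : (0 : ℝ) < b := by linarith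
    set H : ℝ := Real.sqrt (1 / b) with hH
    have hH0 : 0 < H := Real.sqrt_pos.2 (by positivity)
    have hH2 : H ^ 2 = 1 / b := Real.sq_sqrt (by positivity)
    have hb1 : 1 / (b : ℝ) ≤ 1 := by
      rw [div_le_one hb0]
      linarith
    have hH1 : H ≤ 1 := by
      by_contra hcon
      push Not at hcon
      have h1 : 1 < H ^ 2 := one_lt_pow₀ hcon two_ne_zero
      linarith
    have hHb : 1 ≤ b * H := by
      have h1 : (b : ℝ) * H ^ 2 = 1 := by
        rw [hH2]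
        field_simp
      have h2 : H ^ 2 ≤ H := by nlinarith
      have h3 : (b : ℝ) * H ^ 2 ≤ b * H := mul_le_mul_of_nonneg_left h2 hb0.le
      linarith
    have hMaj : MajP b b 1 H (1 / H ^ 3) := majP_alt hb (by omega) le_rfl le_rfl (by omega) hH0 hH1 (by
      rw [hH2, Nat.cast_one, mul_one])
    have hκ : (b : ℝ) ^ (49 / 100 : ℝ) * H < 1 := by
      rw [hH, Real.sqrt_eq_rpow, one_div, Real.inv_rpow hb0.le]
      rw [← div_eq_mul_inv, div_lt_one (by positivity)]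
      exact Real.rpow_lt_rpow_of_exponent_lt (by linarith) (by norm_num)
    exact unifNM (r := 5) (κ := 489 / 1000) (κ' := 49 / 100) (lam := 84 / 100) (η := 1 / 13) hb hMaj hH0 hHb
      (by positivity) (m4_unif hb) (by norm_num) (by norm_num) hκ (by norm_num) (by norm_num) (by norm_num)
      (by norm_num) (by norm_num) M hM0 hM
  · obtain ⟨h1, h2, h3⟩ := HU_facts hb'
    rcases lt_or_ge b 1000 with h9 | h9
    · rw [if_neg (by omega), if_pos hb']
      exact unifNM (r := 4) (κ := 598 / 1000) (κ' := 6 / 10) (lam := 84 / 100) (η := 1 / 13) (by omega)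
        (majP_unif hb') h1 h2
        one_pos (m4_unif (by omega)) (by norm_num) (by norm_num) (cond64 hb') (by norm_num) (by norm_num)
        (by norm_num) (by norm_num) (by norm_num) M hM0 hM
    · rw [if_pos h9]
      exact unifNM (r := 3) (κ := 7265 / 10000) (κ' := 727 / 1000) (lam := 846 / 1000) (η := 1 / 13) (by omega)
        (majP_unif hb') h1 h2
        one_pos (m4_unif (by omega)) (by norm_num) (by norm_num) (cond1000 h9) (by norm_num) (by norm_num)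
        (by norm_num) (by norm_num) (by norm_num) M hM0 hM

end Pool.Agent.X262.PAL
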