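import Pool.Agent.X262.PAL.RD1
import Pool.Agent.W89.PW.Count
import Pool.Agent.W139.PX.F4
import Pool.Agent.W139.PX.G1

/-!
# Almost prime palindromes in residue classes: the right order of magnitude with the right dependence on the modulus
-/

set_option autoImplicit false

namespace Pool.Agent.X262.PAL

open Finset Filter Topology Pool.Agent.W89.PW Pool.Agent.W261.PWBV Pool.Agent.W139.PX

open Classical in
/-- the right order of magnitude for uniform digits -/
theorem unifND {b r : ℕ} (hb : 2 ≤ b) {H CM κ κ' lam η : ℝ} (hMaj : MajP b b 1 H CM) (hH0 : 0 < H)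
    (hHb : 1 ≤ b * H) (hCM : 0 < CM) (hm4 : (b : ℝ) * m4 b 1 < 1) (hκ0 : 0 < κ) (hκκ' : κ < κ')
    (hκH : (b : ℝ) ^ κ' * H < 1)
    (hl0 : 0 < lam) (hl1 : lam ≤ 1)
    (hlam : lam * (1174 / 1000) < 994 / 1000) (hr : 1 / lam + 88 / (43 * κ) < r + 1) (hη : η < κ / 6) :
    ∃ c : ℝ, 0 < c ∧ ∀ M : ℕ, 0 < M → M.Coprime (2 * b) → ∀ᶠ N : ℕ in atTop, ∀ h : ℕ, h.Coprime M →
      c / M.totient * (b : ℝ) ^ N / N ≤ (((range (b ^ (2 * N + 1))).filter (fun n =>
      b ^ (2 * N) ≤ n ∧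
      (Nat.digits b n).reverse = Nat.digits b n ∧ n.primeFactorsList.length ≤ r ∧
      (∀ p ∈ n.primeFactorsList, (b : ℝ) ^ (η * N) < p) ∧ n ≡ h [MOD M])).card : ℝ) := by
  have hb1 : (1 : ℝ) < b := by exact_mod_cast (by omega : 1 < b)
  have hb0 : (0 : ℝ) < b := by linarith
  have hκ'1 : κ' < 1 := by
    by_contra hcon
    push Not at hcon
    have h1 : (b : ℝ) ≤ (b : ℝ) ^ κ' := by
      calc (b : ℝ) = (b : ℝ) ^ (1 : ℝ) := (Real.rpow_one _).symm
        _ ≤ _ := Real.rpow_le_rpow_of_exponent_le hb1.le hcon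
    have h2 : (b : ℝ) * H ≤ (b : ℝ) ^ κ' * H := mul_le_mul_of_nonneg_right h1 hH0.le
    linarith
  have hκ1 : κ < 1 := hκκ'.trans hκ'1
  have hκs : (b : ℝ) ^ κ * H < 1 := by
    refine lt_of_le_of_lt ?_ hκH
    exact mul_le_mul_of_nonneg_right (Real.rpow_le_rpow_of_exponent_le hb1.le hκκ'.le) hH0.le
  have hPt : PtW b b 1 := Pool.Agent.W571.PW.Pt.main b b 1 hb hb le_rfl rfl
  have hBig : BigW b b 1 κ' := bigW_of_majP hb (by omega) le_rfl rfl hm4 hMaj hH0 hHb hCM
    (hκ0.trans hκκ') hκH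
  have hSq : SqW b b 1 κ := sqW_of_majP hMaj hH0 hHb hCM hb (by omega) le_rfl rfl hm4 hκ0 hκs
  obtain ⟨c, hc0, hc⟩ := almostGD (r := r) hb (by omega) le_rfl rfl hκ0 hκ1 hκκ'
    (lvl hb hPt (hκ0.trans hκκ') hκ'1 hBig 3) hSq hl0 hl1 hlam hr
  refine ⟨c / b, by positivity, ?_⟩
  intro M hM0 hM
  have hc := hc M hM0 hM
  have hφ : (0 : ℝ) < M.totient := by exact_mod_cast Nat.totient_pos.2 hM0
  have h2 : ∀ᶠ L : ℕ in atTop, η ≤ (κ / 6 - η) * (L : ℝ) :=
    ((tendsto_natCast_atTop_atTop (R := ℝ)).const_mul_atTop (by linarith)).eventually_ge_atTop _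
  have h3 : ∀ᶠ L : ℕ in atTop, ∀ h : ℕ, h.Coprime M →
      c / b / M.totient * (b : ℝ) ^ (L + 1) / ((L + 1 : ℕ) : ℝ) ≤
      (((range (b ^ (2 * (L + 1) + 1))).filter
      (fun n => b ^ (2 * (L + 1)) ≤ n ∧
      (Nat.digits b n).reverse = Nat.digits b n ∧ n.primeFactorsList.length ≤ r ∧
      (∀ p ∈ n.primeFactorsList, (b : ℝ) ^ (η * ((L + 1 : ℕ) : ℝ)) < p) ∧ n ≡ h [MOD M])).card : ℝ) := by
    filter_upwards [hc, h2, eventually_ge_atTop 1] with L hcL h6 h7
    intro h hhM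
    obtain ⟨G, hG1, hG2⟩ := hcL h hhM
    have hL0 : (0 : ℝ) < L := by exact_mod_cast h7
    have hcard : (G.image (pv b b 1 L)).card = G.card := card_image_of_injective _ (pv_inj_unif hb)
    have hsub : G.image (pv b b 1 L) ⊆
        (range (b ^ (2 * (L + 1) + 1))).filter (fun n => b ^ (2 * (L + 1)) ≤ n ∧
        (Nat.digits b n).reverse = Nat.digits b n ∧ n.primeFactorsList.length ≤ r ∧
        (∀ p ∈ n.primeFactorsList, (b : ℝ) ^ (η * ((L + 1 : ℕ) : ℝ)) < p) ∧ n ≡ h [MOD M]) := by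
      intro n hn
      rw [mem_image] at hn
      obtain ⟨m, hm, rfl⟩ := hn
      rw [mem_filter, mem_range]
      obtain ⟨⟨h9, h10, h11, h12, h13⟩, h14⟩ := hG2 m hm
      refine ⟨by rwa [show 2 * (L + 1) + 1 = 2 * L + 3 by ring], by rwa [show 2 * (L + 1) = 2 * L + 2 by ring],
        h11, h12, fun p hp => lt_of_le_of_lt ?_ (h13 p hp), h14⟩
      apply Real.rpow_le_rpow_of_exponent_le hb1.le
      push_cast
      linarith
    have h8 : (G.card : ℝ) ≤ (((range (b ^ (2 * (L + 1) + 1))).filter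
      (fun n => b ^ (2 * (L + 1)) ≤ n ∧
      (Nat.digits b n).reverse = Nat.digits b n ∧ n.primeFactorsList.length ≤ r ∧
      (∀ p ∈ n.primeFactorsList, (b : ℝ) ^ (η * ((L + 1 : ℕ) : ℝ)) < p) ∧ n ≡ h [MOD M])).card : ℝ) := by
      rw [← hcard]
      exact_mod_cast card_le_card hsub
    refine le_trans ?_ (hG1.trans h8)
    rw [Nat.cast_one, mul_one]
    have e : c / b / M.totient * (b : ℝ) ^ (L + 1) = c / M.totient * (b : ℝ) ^ L := by
      rw [pow_succ]; field_simp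
    rw [e]
    apply div_le_div_of_nonneg_left (by positivity) hL0
    push_cast
    linarith
  rw [eventually_atTop] at h3 ⊢
  obtain ⟨L0, hL0⟩ := h3
  refine ⟨L0 + 1, fun N hN => ?_⟩
  obtain ⟨L, rfl⟩ : ∃ L, N = L + 1 := ⟨N - 1, by omega⟩
  exact hL0 L (by omega)

open Classical in
/-- every base, right order of magnitude -/
theorem finUD {b : ℕ} (hb : 2 ≤ b) :
    ∃ c : ℝ, 0 < c ∧ ∀ M : ℕ, 0 < M → M.Coprime (2 * b) → ∀ᶠ N : ℕ in atTop, ∀ h : ℕ, h.Coprime M →
      c / M.totient * (b : ℝ) ^ N / N ≤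
    (((range (b ^ (2 * N + 1))).filter (fun n => b ^ (2 * N) ≤ n ∧
      (Nat.digits b n).reverse = Nat.digits b n ∧
      n.primeFactorsList.length ≤ (if 1000 ≤ b then 3 else if 64 ≤ b then 4 else 5) ∧
      (∀ p ∈ n.primeFactorsList, (b : ℝ) ^ ((1 / 13) * (N : ℝ)) < p) ∧ n ≡ h [MOD M])).card : ℝ) := by
  rcases lt_or_ge b 64 with hb' | hb'
  · rw [if_neg (by omega), if_neg (by omega)]
    have hbR : (2 : ℝ) ≤ b := by exact_mod_cast hb
    have hb0 : (0 : ℝ) < b := by linarith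
    set H : ℝ := Real.sqrt (1 / b) with hH
    have hH0 : 0 < H := Real.sqrt_pos.2 (by positivity)
    have hH2 : H ^ 2 = 1 / b := Real.sq_sqrt (by positivity)
    have hb1 : 1 / (b : ℝ) ≤ 1 := by
      rw [div_le_one hb0]
      linarith
    have hH1 : H ≤ 1 := by
      by_contra hcon
      push Not at hcon
      have h1 : 1 < H ^ 2 := one_lt_pow₀ hcon two_ne_zero
      linarith
    have hHb : 1 ≤ b * H := by
      have h1 : (b : ℝ) * H ^ 2 = 1 := by
        rw [hH2]
        field_simp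
      have h2 : H ^ 2 ≤ H := by nlinarith
      have h3 : (b : ℝ) * H ^ 2 ≤ b * H := mul_le_mul_of_nonneg_left h2 hb0.le
      linarith
    have hMaj : MajP b b 1 H (1 / H ^ 3) := majP_alt hb (by omega) le_rfl le_rfl (by omega) hH0 hH1 (by
      rw [hH2, Nat.cast_one, mul_one])
    have hκ : (b : ℝ) ^ (49 / 100 : ℝ) * H < 1 := by
      rw [hH, Real.sqrt_eq_rpow, one_div, Real.inv_rpow hb0.le]
      rw [← div_eq_mul_inv, div_lt_one (by positivity)]
      exact Real.rpow_lt_rpow_of_exponent_lt (by linarith) (by norm_num)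
    exact unifND (r := 5) (κ := 489 / 1000) (κ' := 49 / 100) (lam := 84 / 100) (η := 1 / 13) hb hMaj hH0 hHb
      (by positivity) (m4_unif hb) (by norm_num) (by norm_num) hκ (by norm_num) (by norm_num) (by norm_num)
      (by norm_num) (by norm_num)
  · obtain ⟨h1, h2, h3⟩ := HU_facts hb'
    rcases lt_or_ge b 1000 with h9 | h9
    · rw [if_neg (by omega), if_pos hb']
      exact unifND (r := 4) (κ := 598 / 1000) (κ' := 6 / 10) (lam := 84 / 100) (η := 1 / 13) (by omega)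
        (majP_unif hb') h1 h2
        one_pos (m4_unif (by omega)) (by norm_num) (by norm_num) (cond64 hb') (by norm_num) (by norm_num)
        (by norm_num) (by norm_num) (by norm_num)
    · rw [if_pos h9]
      exact unifND (r := 3) (κ := 7265 / 10000) (κ' := 727 / 1000) (lam := 846 / 1000) (η := 1 / 13) (by omega)
        (majP_unif hb') h1 h2
        one_pos (m4_unif (by omega)) (by norm_num) (by norm_num) (cond1000 h9) (by norm_num) (by norm_num)
        (by norm_num) (by norm_num) (by norm_num)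


open Classical in
/-- transfer to all `x` -/
theorem to_xD {b r M : ℕ} (hb : 2 ≤ b) {c : ℝ} (hc : 0 < c)
    (h : ∀ᶠ N : ℕ in atTop, ∀ a : ℕ, a.Coprime M → c * (b : ℝ) ^ N / N ≤
    (((range (b ^ (2 * N + 1))).filter (fun n => b ^ (2 * N) ≤ n ∧
      (Nat.digits b n).reverse = Nat.digits b n ∧
      n.primeFactorsList.length ≤ r ∧
      (∀ p ∈ n.primeFactorsList, (b : ℝ) ^ ((1 / 13) * (N : ℝ)) < p) ∧ n ≡ a [MOD M])).card : ℝ)) :
    ∀ᶠ x : ℕ in atTop, ∀ a : ℕ, a.Coprime M →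
      c * Real.log b / (4 * b ^ 2) * (((Icc 1 x).filter (fun n => (Nat.digits b n).reverse = Nat.digits b n)).card : ℝ) / Real.log x ≤
      (((Icc 1 x).filter (fun n => (Nat.digits b n).reverse = Nat.digits b n ∧
        n.primeFactorsList.length ≤ r ∧ (∀ p ∈ n.primeFactorsList, (x : ℝ) ^ (1 / 30 : ℝ) < p) ∧ n ≡ a [MOD M])).card : ℝ) := by
  have hb1 : (1 : ℝ) < b := by exact_mod_cast (by omega : 1 < b)
  have hb0 : (0 : ℝ) < b := by linarith
  have hlb : 0 < Real.log b := Real.log_pos hb1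
  rw [eventually_atTop] at h
  obtain ⟨N0, hN0⟩ := h
  filter_upwards [eventually_ge_atTop (b ^ (2 * (N0 + 10) + 3))] with x hx
  intro a ha
  set N := (Nat.log b x - 1) / 2 with hN
  have hx0 : x ≠ 0 := by
    have : 0 < b ^ (2 * (N0 + 10) + 3) := by positivity
    omega
  have hlog : 2 * (N0 + 10) + 3 ≤ Nat.log b x := Nat.le_log_of_pow_le (by omega) hx
  have hNN : N0 + 10 ≤ N := by omega
  have h1 : b ^ (2 * N + 1) ≤ x :=
    (Nat.pow_le_pow_right (by omega) (by omega : 2 * N + 1 ≤ Nat.log b x)).trans (Nat.pow_log_le_self b hx0)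
  have h2 : x < b ^ (2 * N + 3) :=
    (Nat.lt_pow_succ_log_self (by omega) x).trans_le (Nat.pow_le_pow_right (by omega) (by omega))
  have h3 := hN0 N (by omega) a ha
  have hNR : (10 : ℝ) ≤ N := by exact_mod_cast (by omega : 10 ≤ N)
  have hN0' : (0 : ℝ) < N := by linarith
  have h4 : (((range (b ^ (2 * N + 1))).filter (fun n => b ^ (2 * N) ≤ n ∧
      (Nat.digits b n).reverse = Nat.digits b n ∧
      n.primeFactorsList.length ≤ r ∧
      (∀ p ∈ n.primeFactorsList, (b : ℝ) ^ ((1 / 13) * (N : ℝ)) < p) ∧ n ≡ a [MOD M])).card : ℝ) ≤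
      (((Icc 1 x).filter (fun n => (Nat.digits b n).reverse = Nat.digits b n ∧
        n.primeFactorsList.length ≤ r ∧ (∀ p ∈ n.primeFactorsList, (x : ℝ) ^ (1 / 30 : ℝ) < p) ∧ n ≡ a [MOD M])).card : ℝ) := by
    have : ((range (b ^ (2 * N + 1))).filter (fun n => b ^ (2 * N) ≤ n ∧
      (Nat.digits b n).reverse = Nat.digits b n ∧
      n.primeFactorsList.length ≤ r ∧
      (∀ p ∈ n.primeFactorsList, (b : ℝ) ^ ((1 / 13) * (N : ℝ)) < p) ∧ n ≡ a [MOD M])) ⊆
      ((Icc 1 x).filter (fun n => (Nat.digits b n).reverse = Nat.digits b n ∧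
        n.primeFactorsList.length ≤ r ∧ (∀ p ∈ n.primeFactorsList, (x : ℝ) ^ (1 / 30 : ℝ) < p) ∧ n ≡ a [MOD M])) := by
      intro n hn
      rw [mem_filter, mem_range] at hn
      obtain ⟨g1, g2, g3, g4, g5, g6⟩ := hn
      rw [mem_filter, mem_Icc]
      refine ⟨⟨?_, by omega⟩, g3, g4, ?_, g6⟩
      · have : 0 < b ^ (2 * N) := by positivity
        omega
      · intro p hp
        refine lt_of_le_of_lt ?_ (g5 p hp)
        have e1 : (x : ℝ) ≤ (b : ℝ) ^ (2 * (N : ℝ) + 3) := by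
          have e2 : (x : ℝ) ≤ (b : ℝ) ^ (2 * N + 3) := by exact_mod_cast h2.le
          have e3 : (b : ℝ) ^ (2 * (N : ℝ) + 3) = (b : ℝ) ^ (2 * N + 3) := by
            rw [← Real.rpow_natCast]
            push_cast
            rfl
          rw [e3]
          exact e2
        calc (x : ℝ) ^ (1 / 30 : ℝ) ≤ ((b : ℝ) ^ (2 * (N : ℝ) + 3)) ^ (1 / 30 : ℝ) :=
              Real.rpow_le_rpow (Nat.cast_nonneg _) e1 (by norm_num)
          _ = (b : ℝ) ^ ((2 * (N : ℝ) + 3) * (1 / 30)) := by rw [← Real.rpow_mul hb0.le]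
          _ ≤ (b : ℝ) ^ ((1 / 13) * (N : ℝ)) := by
              apply Real.rpow_le_rpow_of_exponent_le hb1.le
              linarith
    exact_mod_cast card_le_card this
  refine le_trans ?_ (h3.trans h4)
  have h5 : (((Icc 1 x).filter (fun n => (Nat.digits b n).reverse = Nat.digits b n)).card : ℝ) ≤
      4 * (b : ℝ) ^ (N + 2) := by
    exact_mod_cast card_pal_le hb N x h2
  have h6 : (N : ℝ) * Real.log b ≤ Real.log x := by
    have e1 : ((b : ℝ)) ^ N ≤ x := by
      have : b ^ N ≤ b ^ (2 * N + 1) := Nat.pow_le_pow_right (by omega) (by omega)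
      exact_mod_cast this.trans h1
    have e2 := Real.log_le_log (by positivity) e1
    rwa [Real.log_pow] at e2
  have h7 : 0 < (N : ℝ) * Real.log b := by positivity
  have hlx : 0 < Real.log x := by linarith
  rw [div_le_div_iff₀ hlx hN0']
  calc c * Real.log b / (4 * b ^ 2) *
        (((Icc 1 x).filter (fun n => (Nat.digits b n).reverse = Nat.digits b n)).card : ℝ) * N
      ≤ c * Real.log b / (4 * b ^ 2) * (4 * (b : ℝ) ^ (N + 2)) * N := by gcongr
    _ = c * (b : ℝ) ^ N * (N * Real.log b) := by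
        rw [pow_add]
        field_simp
    _ ≤ c * (b : ℝ) ^ N * Real.log x := mul_le_mul_of_nonneg_left h6 (by positivity)



end Pool.Agent.X262.PAL
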