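import Pool.Agent.Y816.PS.A
import Pool.Agent.W139.PX.D5

/-!
# Almost prime palindromes in residue classes

Variants of `Pool.Agent.W139.PX.bvW2`, `good2`, `almostG` (same proofs) for the palindromes in a residue class.
-/

set_option autoImplicit false

namespace Pool.Agent.X262.PAL

open Finset Filter Topology Pool.Agent.W89.PW Pool.Agent.W261.PWBV Pool.Agent.W139.PX
open Pool.Agent.W89.Sv (PP PZ VZ rem wt En weighted_sieve V_lim cV cV_pos mem_PP dvd_PZ)
open Pool.Agent.H476R2.Pal (omega_bound count_pos)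
open Pool.Agent.Y816.PS

/-- the error term -/
noncomputable def Es (b s t L q : ℕ) : ℝ :=
  ((s : ℝ) * t) ^ L / q * ∑ d ∈ q.divisors.filter (fun d => 1 < d), U b s t L d

lemma Es_nonneg (b s t L q : ℕ) : 0 ≤ Es b s t L q := by
  unfold Es
  exact mul_nonneg (by positivity) (sum_nonneg fun _ _ => U_nonneg _ _ _ _ _)

/-- level of distribution for the error terms -/
theorem lvl {b s t : ℕ} (hb : 2 ≤ b) (hP : PtW b s t) {κ : ℝ} (hκ0 : 0 < κ)
    (hκ1 : κ < 1) (hB : BigW b s t κ) (A : ℕ) : ∀ᶠ L : ℕ in atTop,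
    ∑ q ∈ (Icc 1 ⌊(b : ℝ) ^ (κ * L)⌋₊).filter (fun q => q.Coprime (2 * b)),
      (q.divisors.card : ℝ) ^ 2 * Es b s t L q ≤ ((s : ℝ) * t) ^ L / (L : ℝ) ^ A := by
  have hb0 : 0 < b := by omega
  have hbr : (0 : ℝ) < b := by exact_mod_cast hb0
  have hb1 : (1 : ℝ) ≤ b := by exact_mod_cast hb0
  filter_upwards [U_sum b s t (by omega) hP κ hκ0 hκ1 hB (A + 5),
    eventually_ge_atTop ((b + 1) ^ 4)] with L hL hLb
  set D := ⌊(b : ℝ) ^ (κ * L)⌋₊ with hD
  have hLb' : ((b : ℝ) + 1) ^ 4 ≤ L := by exact_mod_cast hLb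
  have hL1 : (1 : ℝ) ≤ L := by
    have : (1 : ℝ) ≤ ((b : ℝ) + 1) ^ 4 := one_le_pow₀ (by linarith)
    linarith
  have hL0 : (0 : ℝ) < L := by linarith
  have h2 := double b s t L D
  have h3 := Pool.Agent.H316R2.tau_sq_sum_le D
  have hlog : 1 + Real.log D ≤ (b + 1) * L := by
    rcases Nat.eq_zero_or_pos D with h0 | h0
    · rw [h0]
      simp only [Nat.cast_zero, Real.log_zero, add_zero]
      nlinarith
    · have hDle : (D : ℝ) ≤ (b : ℝ) ^ (κ * L) := Nat.floor_le (by positivity)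
      have hDle2 : (D : ℝ) ≤ (b : ℝ) ^ ((1 : ℝ) * L) := by
        refine hDle.trans (Real.rpow_le_rpow_of_exponent_le hb1 ?_)
        exact mul_le_mul_of_nonneg_right hκ1.le hL0.le
      have h4 : Real.log D ≤ (1 * L) * Real.log b := by
        rw [← Real.log_rpow hbr]
        exact Real.log_le_log (by exact_mod_cast h0) hDle2
      have h5 : Real.log b ≤ b - 1 := Real.log_le_sub_one_of_pos hbr
      have h6 : (1 * L) * Real.log b ≤ (1 * L) * ((b : ℝ) - 1) :=
        mul_le_mul_of_nonneg_left h5 (by positivity)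
      nlinarith [mul_pos hbr hL0]
  have hlog0 : 0 ≤ 1 + Real.log D := by
    have := Real.log_natCast_nonneg D
    linarith
  have h4 : ∑ e ∈ Icc 1 D, (e.divisors.card : ℝ) ^ 2 / e ≤ ((b : ℝ) + 1) ^ 4 * (L : ℝ) ^ 4 := by
    refine h3.trans ?_
    calc (1 + Real.log D) ^ 4 ≤ (((b : ℝ) + 1) * (L : ℝ)) ^ 4 := by gcongr
      _ = ((b : ℝ) + 1) ^ 4 * (L : ℝ) ^ 4 := by ring
  refine (show _ = _ from rfl).trans_le (h2.trans ?_)
  have hS0 : 0 ≤ ∑ e ∈ Icc 1 D, (e.divisors.card : ℝ) ^ 2 / e :=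
    sum_nonneg fun _ _ => by positivity
  calc ((s : ℝ) * t) ^ L * ((∑ d ∈ (Icc 2 D).filter (fun q => q.Coprime (2 * b)),
      (d.divisors.card : ℝ) ^ 2 * U b s t L d / d) *
        ∑ e ∈ Icc 1 D, (e.divisors.card : ℝ) ^ 2 / e)
      ≤ ((s : ℝ) * t) ^ L * ((1 / (L : ℝ) ^ (A + 5)) * (((b : ℝ) + 1) ^ 4 * (L : ℝ) ^ 4)) :=
        mul_le_mul_of_nonneg_left (mul_le_mul hL h4 hS0 (by positivity)) (by positivity)
    _ ≤ ((s : ℝ) * t) ^ L / (L : ℝ) ^ A := by
        generalize ((b : ℝ) + 1) ^ 4 = B at hLb'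
        have h5 : (1 / (L : ℝ) ^ (A + 5)) * (B * (L : ℝ) ^ 4) = B / L * (1 / (L : ℝ) ^ A) := by
          have hy : ((L : ℝ) ^ A) ≠ 0 := by positivity
          have hx : (L : ℝ) ≠ 0 := hL0.ne'
          rw [pow_add]
          generalize (L : ℝ) ^ A = y at hy
          generalize (L : ℝ) = x at hx
          field_simp
        rw [h5]
        have h6 : B / (L : ℝ) ≤ 1 := by rw [div_le_one hL0]; exact hLb'
        have h7 : (0 : ℝ) < 1 / (L : ℝ) ^ A := by positivity
        calc ((s : ℝ) * t) ^ L * (B / L * (1 / (L : ℝ) ^ A))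
            ≤ ((s : ℝ) * t) ^ L * (1 * (1 / (L : ℝ) ^ A)) := by gcongr
          _ = _ := by ring

open Classical in
/-- the remainders of the palindromes in a residue class -/
lemma rem_class {b s t : ℕ} (hs : 0 < s) (ht : 0 < t) (L M h q : ℕ) (hM : M.Coprime (2 * b))
    (hq : q.Coprime (2 * b * M)) :
    |rem ((univ : Finset (Fin L → Fin s × Fin t)).filter (fun m => pv b s t L m ≡ h [MOD M]))
      (pv b s t L) (((s : ℝ) * t) ^ L / M) q| ≤ Es b s t L (q * M) := by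
  have hq1 : q.Coprime (2 * b) := Nat.Coprime.coprime_mul_right_right hq
  have hq2 : q.Coprime M := Nat.Coprime.coprime_mul_left_right hq
  obtain ⟨c, hc1, hc2⟩ := Nat.chineseRemainder hq2 0 h
  have hcop : (q * M).Coprime (2 * b) := Nat.Coprime.mul_left hq1 hM
  have h1 := cnth_bound hs ht b L (q * M) c hcop
  have h2 : cnth b s t L (q * M) c =
      ((((univ : Finset (Fin L → Fin s × Fin t)).filter (fun m => pv b s t L m ≡ h [MOD M])).filter
        (fun m => q ∣ pv b s t L m)).card : ℝ) := by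
    unfold cnth
    rw [filter_filter]
    congr 2
    apply filter_congr
    intro m _
    rw [← Nat.modEq_and_modEq_iff_modEq_mul hq2]
    constructor
    · rintro ⟨h3, h4⟩
      exact ⟨h4.trans hc2, (Nat.modEq_zero_iff_dvd).1 (h3.trans hc1)⟩
    · rintro ⟨h3, h4⟩
      exact ⟨((Nat.modEq_zero_iff_dvd).2 h4).trans hc1.symm, h3.trans hc2.symm⟩
  unfold rem
  rw [h2] at h1
  unfold Es
  have e : ((s : ℝ) * t) ^ L / M / q = ((s : ℝ) * t) ^ L / ((q * M : ℕ) : ℝ) := by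
    push_cast
    rw [div_div, mul_comm (M : ℝ)]
  rw [e]
  exact h1

/-- the sum of the remainders -/
lemma rem_sum {b s t : ℕ} (L M D D' : ℕ) (hM0 : 0 < M) (hM : M.Coprime (2 * b)) (hD : D * M ≤ D') :
    ∑ q ∈ (Icc 1 D).filter (fun q => q.Coprime (2 * b * M)),
      (q.divisors.card : ℝ) ^ 2 * Es b s t L (q * M) ≤
    ∑ q ∈ (Icc 1 D').filter (fun q => q.Coprime (2 * b)),
      (q.divisors.card : ℝ) ^ 2 * Es b s t L q := by
  have h1 : ∑ q ∈ (Icc 1 D).filter (fun q => q.Coprime (2 * b * M)),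
      (q.divisors.card : ℝ) ^ 2 * Es b s t L (q * M) ≤
      ∑ q ∈ (Icc 1 D).filter (fun q => q.Coprime (2 * b * M)),
      ((q * M).divisors.card : ℝ) ^ 2 * Es b s t L (q * M) := by
    apply sum_le_sum
    intro q hq
    rw [mem_filter, mem_Icc] at hq
    apply mul_le_mul_of_nonneg_right _ (Es_nonneg _ _ _ _ _)
    have h2 : q.divisors.card ≤ (q * M).divisors.card := by
      apply card_le_card
      exact Nat.divisors_subset_of_dvd (by
        have := Nat.mul_pos (by omega : 0 < q) hM0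
        omega) (dvd_mul_right q M)
    have h3 : (q.divisors.card : ℝ) ≤ (q * M).divisors.card := by exact_mod_cast h2
    exact pow_le_pow_left₀ (Nat.cast_nonneg _) h3 2
  refine h1.trans ?_
  have h2 : ∑ q ∈ (Icc 1 D).filter (fun q => q.Coprime (2 * b * M)),
      ((q * M).divisors.card : ℝ) ^ 2 * Es b s t L (q * M) =
      ∑ q ∈ ((Icc 1 D).filter (fun q => q.Coprime (2 * b * M))).image (fun q => q * M),
      (q.divisors.card : ℝ) ^ 2 * Es b s t L q := by
    rw [Finset.sum_image]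
    intro a _ a' _ haa
    exact Nat.eq_of_mul_eq_mul_right hM0 haa
  rw [h2]
  apply sum_le_sum_of_subset_of_nonneg
  · intro q hq
    rw [mem_image] at hq
    obtain ⟨a, ha, rfl⟩ := hq
    rw [mem_filter, mem_Icc] at ha ⊢
    refine ⟨⟨?_, (Nat.mul_le_mul_right M ha.1.2).trans hD⟩, ?_⟩
    · have := Nat.mul_pos (by omega : 0 < a) hM0
      omega
    · exact Nat.Coprime.mul_left (Nat.Coprime.coprime_mul_right_right ha.2) hM
  · intro q _ _
    exact mul_nonneg (by positivity) (Es_nonneg _ _ _ _ _)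

/-- a palindrome of positive weight has at most `r` prime factors -/
theorem goodM {b r L n z m0 : ℕ} {lam R η κ : ℝ} (hz : 2 ≤ z) (h1 : 0 < n) (h2 : n < b ^ (2 * L + 3))
    (hm0 : 2 * b ∣ m0) (hc : n.Coprime m0) (hs : n.Coprime (PZ m0 z))
    (hzD : (z : ℝ) ^ (11 / 2 : ℝ) ≤ (b : ℝ) ^ (κ * L)) (hzη : (b : ℝ) ^ (η * L) < z)
    (hsq : ∀ p : ℕ, p.Coprime (2 * b) → (b : ℝ) ^ (η * L) ≤ p → (p : ℝ) ≤ (b : ℝ) ^ (κ * L) → ¬ p ^ 2 ∣ n)
    (hl0 : 0 < lam) (hR : (2 * (L : ℝ) + 3) * Real.log b ≤ R * (86 / 88 * Real.log ((z : ℝ) ^ (11 / 2 : ℝ))))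
    (hrR : 1 / lam + R ≤ r + 1) (hw : 0 < wt m0 z lam n) :
    n.primeFactorsList.length ≤ r ∧ ∀ p ∈ n.primeFactorsList, (b : ℝ) ^ (η * L) < p := by
  have hzR : (2 : ℝ) ≤ z := by exact_mod_cast hz
  have hnd : ∀ p : ℕ, p.Prime → p ∣ n → ¬ p ∣ m0 := by
    intro p hp hpn hpb
    have h5 := Nat.dvd_gcd hpn hpb
    rw [hc] at h5
    exact hp.one_lt.ne' (Nat.dvd_one.1 h5)
  -- all prime factors are at least z
  have hbig : ∀ p : ℕ, p.Prime → p ∣ n → z ≤ p := by
    intro p hp hpn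
    by_contra hlt
    push Not at hlt
    have h4 := dvd_PZ hp hlt (hnd p hp hpn)
    have h5 := Nat.dvd_gcd hpn h4
    rw [hs] at h5
    exact hp.one_lt.ne' (Nat.dvd_one.1 h5)
  have hbig' : ∀ p : ℕ, p.Prime → p ∣ n → (b : ℝ) ^ (η * L) < p := fun p hp hpn =>
    hzη.trans_le (by exact_mod_cast hbig p hp hpn)
  refine ⟨?_, fun p hp => hbig' p (Nat.prime_of_mem_primeFactorsList hp) (Nat.dvd_of_mem_primeFactorsList hp)⟩
  set D : ℝ := (z : ℝ) ^ (11 / 2 : ℝ) with hD
  have hD1 : 1 < D := Real.one_lt_rpow (by linarith) (by norm_num)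
  have hD0 : 0 < D := by linarith
  have hlD0 : 0 < Real.log D := Real.log_pos hD1
  set ly := 86 / 88 * Real.log D with hly
  have hly0 : 0 < ly := by positivity
  have hlogy : Real.log (D ^ (86 / 88 : ℝ)) = ly := by rw [Real.log_rpow hD0]
  have hiff : ∀ p : ℕ, p.Prime → (Real.log p < ly ↔ (p : ℝ) < D ^ (86 / 88 : ℝ)) := by
    intro p hp
    rw [← hlogy]
    exact Real.log_lt_log_iff (by exact_mod_cast hp.pos) (by positivity)
  have hyD : D ^ (86 / 88 : ℝ) ≤ D := by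
    conv_rhs => rw [← Real.rpow_one D]
    exact Real.rpow_le_rpow_of_exponent_le hD1.le (by norm_num)
  have hom := omega_bound h1 hly0 (by
    intro p hp hpn hlt
    apply hsq p
    · rw [Nat.Prime.coprime_iff_not_dvd hp]
      exact fun h => hnd p hp hpn (h.trans hm0)
    · exact (hbig' p hp hpn).le
    · exact ((((hiff p hp).1 hlt).le).trans hyD).trans hzD)
  have hset : n.primeFactors.filter (fun p : ℕ => Real.log p < ly) =
      (En m0 z D 70).filter (fun p => p ∣ n) := by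
    ext p
    unfold En
    have e1 : (((70 : ℕ) : ℝ) + 16) / 88 = 86 / 88 := by norm_num
    rw [e1]
    simp only [mem_filter, mem_PP, Nat.mem_primeFactors]
    constructor
    · rintro ⟨⟨hp, hpn, _⟩, hlt⟩
      exact ⟨⟨⟨Nat.lt_ceil.2 ((hiff p hp).1 hlt), hp, hnd p hp hpn⟩, hbig p hp hpn⟩, hpn⟩
    · rintro ⟨⟨⟨hlt, hp, _⟩, _⟩, hpn⟩
      exact ⟨⟨hp, hpn, h1.ne'⟩, (hiff p hp).2 (Nat.lt_ceil.1 hlt)⟩
  rw [hset] at hom
  unfold wt at hw
  rw [← hD, ← hly] at hw
  set Sg := ∑ p ∈ (En m0 z D 70).filter (fun p => p ∣ n), (1 - Real.log p / ly) with hSg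
  have hS : Sg < 1 / lam := by
    rw [lt_div_iff₀ hl0]
    linarith
  have hlogn : Real.log n ≤ (2 * (L : ℝ) + 3) * Real.log b := by
    have : (n : ℝ) ≤ (b : ℝ) ^ (2 * L + 3) := by exact_mod_cast h2.le
    calc Real.log n ≤ Real.log ((b : ℝ) ^ (2 * L + 3)) :=
          Real.log_le_log (by exact_mod_cast h1) this
      _ = _ := by rw [Real.log_pow]; push_cast; ring
  have hratio : Real.log n / ly ≤ R := by
    rw [div_le_iff₀ hly0]
    exact hlogn.trans hR
  have hlt : (n.primeFactorsList.length : ℝ) < r + 1 := by linarith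
  have : n.primeFactorsList.length < r + 1 := by exact_mod_cast hlt
  omega

/-- many digit vectors give palindromes in a residue class with at most `r` prime factors -/
theorem almostGM {b s t r : ℕ} (hb : 2 ≤ b) (hs : 1 ≤ s) (ht : 1 ≤ t) (hbst : s + t = b + 1) {κ κ' lam : ℝ}
    (hκ0 : 0 < κ) (hκ1 : κ < 1) (hκκ' : κ < κ')
    (hLv : ∀ᶠ L : ℕ in atTop, ∑ q ∈ (Icc 1 ⌊(b : ℝ) ^ (κ' * L)⌋₊).filter (fun q => q.Coprime (2 * b)),
      (q.divisors.card : ℝ) ^ 2 * Es b s t L q ≤ ((s : ℝ) * t) ^ L / (L : ℝ) ^ 3)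
    (hSq : SqW b s t κ) (hl0 : 0 < lam) (hl1 : lam ≤ 1)
    (hlam : lam * (1174 / 1000) < 994 / 1000) (hr : 1 / lam + 88 / (43 * κ) < r + 1)
    (M : ℕ) (hM0 : 0 < M) (hM : M.Coprime (2 * b)) :
    ∃ c : ℝ, 0 < c ∧ ∀ᶠ L : ℕ in atTop, ∀ h : ℕ, h.Coprime M → ∃ G : Finset (Fin L → Fin s × Fin t),
      c * ((s : ℝ) * t) ^ L / L ≤ G.card ∧
      ∀ m ∈ G, PlP b r κ L (pv b s t L m) ∧ pv b s t L m ≡ h [MOD M] := by
  classical
  have hDig := fun L => dig2 (s := s) (t := t) L hb hbst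
  have hm00 : 2 * b * M ≠ 0 := by
    have := Nat.mul_pos (by omega : 0 < 2 * b) hM0
    omega
  obtain ⟨δ, hδ0, z0, hsieve⟩ := weighted_sieve (2 * b * M) hm00
    (Dvd.dvd.mul_right (dvd_mul_right 2 b) M) hl0.le hl1 hlam
  have hbR : (2 : ℝ) ≤ b := by exact_mod_cast hb
  have hMR : (0 : ℝ) < M := by exact_mod_cast hM0
  have hlb0 : 0 < Real.log b := Real.log_pos (by linarith)
  set K : ℝ := cV (2 * b * M) with hK
  have hK0 : 0 < K := cV_pos _
  set R : ℝ := (r : ℝ) + 1 - 1 / lam with hRd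
  have hRκ : 0 < R * (86 / 88) * κ - 2 := by
    have h1 : 88 / (43 * κ) < R := by rw [hRd]; linarith
    rw [div_lt_iff₀ (by positivity)] at h1
    linarith
  have hR0 : 0 < R := by
    have h1 : 0 < R * (86 / 88) * κ := by linarith
    by_contra h
    push Not at h
    have : R * (86 / 88) * κ ≤ 0 := by
      have h2 : 0 ≤ (86 / 88 : ℝ) * κ := by positivity
      nlinarith
    linarith
  set c : ℝ := δ * K / (8 * (M * Real.log b)) with hc
  have hc0 : 0 < c := by positivity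
  refine ⟨c, hc0, ?_⟩
  have e1 : ∀ᶠ L : ℕ in atTop, K / 2 < VZ (2 * b * M) (zz b κ L) * Real.log (zz b κ L : ℝ) :=
    ((V_lim (2 * b * M) hm00).comp (tendsto_zz (by omega) hκ0)).eventually_const_lt (by linarith)
  have e2 : ∀ᶠ L : ℕ in atTop, max z0 2 ≤ zz b κ L := (tendsto_zz (by omega) hκ0).eventually_ge_atTop _
  have e4 := hSq (κ / 6) (by positivity) 3
  have e5 : ∀ᶠ L : ℕ in atTop, 16 * (M * Real.log b) / (δ * K) + 1 ≤ (L : ℝ) :=
    tendsto_natCast_atTop_atTop.eventually_ge_atTop _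
  have e6 : ∀ᶠ L : ℕ in atTop, 2 ≤ (b : ℝ) ^ (κ * (2 / 11 - 1 / 6) * (L : ℝ)) :=
    (tendsto_bpow (by omega) (a := κ * (2 / 11 - 1 / 6)) (by positivity)).eventually_ge_atTop 2
  have e7 : ∀ᶠ L : ℕ in atTop, 3 * Real.log b + R * (86 / 88) * (11 / 2 * Real.log 2) ≤
      (R * (86 / 88) * κ - 2) * Real.log b * (L : ℝ) :=
    ((tendsto_natCast_atTop_atTop (R := ℝ)).const_mul_atTop (by positivity)).eventually_ge_atTop _
  have e8 : ∀ᶠ L : ℕ in atTop, (M : ℝ) ≤ (b : ℝ) ^ ((κ' - κ) * (L : ℝ)) :=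
    (tendsto_bpow (by omega) (a := κ' - κ) (by linarith)).eventually_ge_atTop (M : ℝ)
  filter_upwards [e1, e2, hLv, e4, e5, e6, e7, e8] with L h1 h2 h3 h4 h5 h6 h7 h8'
  intro h hhM
  have hL1 : (1 : ℝ) ≤ L := by
    have : 0 ≤ 16 * (M * Real.log b) / (δ * K) := by positivity
    linarith
  have hL0 : (0 : ℝ) < L := by linarith
  set z := zz b κ L with hz
  have hz0 : z0 ≤ z := (le_max_left _ _).trans h2
  have hz2 : 2 ≤ z := (le_max_right _ _).trans h2
  have hzR : (2 : ℝ) ≤ z := by exact_mod_cast hz2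
  have hzle : (z : ℝ) ≤ (b : ℝ) ^ (κ * L * (2 / 11)) := zz_le b κ L
  have hzge : (b : ℝ) ^ (κ * L * (2 / 11)) / 2 ≤ z := by
    have h8 : (b : ℝ) ^ (κ * L * (2 / 11)) < z + 1 := Nat.lt_floor_add_one _
    linarith
  have hzη : (b : ℝ) ^ (κ / 6 * L) < z := by
    have e : (b : ℝ) ^ (κ * L * (2 / 11)) = (b : ℝ) ^ (κ / 6 * L) * (b : ℝ) ^ (κ * (2 / 11 - 1 / 6) * (L : ℝ)) := by
      rw [← Real.rpow_add (by linarith)]
      congr 1
      ring
    have h8 : (b : ℝ) ^ (κ * L * (2 / 11)) < z + 1 := Nat.lt_floor_add_one _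
    have h9 : 1 < (b : ℝ) ^ (κ / 6 * L) := Real.one_lt_rpow (by linarith) (by positivity)
    have h10 : (b : ℝ) ^ (κ / 6 * L) * 2 ≤ (b : ℝ) ^ (κ * L * (2 / 11)) := by
      rw [e]
      exact mul_le_mul_of_nonneg_left h6 (by positivity)
    linarith
  have hzD : (z : ℝ) ^ (11 / 2 : ℝ) ≤ (b : ℝ) ^ (κ * L) := zz_pow_le κ L
  have hlogz : Real.log z ≤ L * Real.log b := by
    have h8 := Real.log_le_log (by linarith) hzle
    rw [Real.log_rpow (by linarith)] at h8
    refine h8.trans ?_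
    apply mul_le_mul_of_nonneg_right _ hlb0.le
    have : κ * L * (2 / 11) ≤ 1 * L * 1 := by
      apply mul_le_mul _ (by norm_num) (by norm_num) (by positivity)
      exact mul_le_mul_of_nonneg_right hκ1.le hL0.le
    linarith
  have hR : (2 * (L : ℝ) + 3) * Real.log b ≤ R * (86 / 88 * Real.log ((z : ℝ) ^ (11 / 2 : ℝ))) := by
    have h8 := Real.log_le_log (by positivity) hzge
    rw [Real.log_div (by positivity) (by norm_num), Real.log_rpow (by linarith)] at h8
    rw [Real.log_rpow (by linarith)]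
    have h9 : R * (86 / 88) * (11 / 2) * (κ * L * (2 / 11) * Real.log b - Real.log 2) ≤
        R * (86 / 88) * (11 / 2) * Real.log z := mul_le_mul_of_nonneg_left h8 (by positivity)
    have h10 : R * (86 / 88) * (11 / 2) * (κ * L * (2 / 11) * Real.log b - Real.log 2) =
        (R * (86 / 88) * κ - 2) * Real.log b * L + 2 * L * Real.log b - R * (86 / 88) * (11 / 2 * Real.log 2) := by
      ring
    rw [h10] at h9
    linarith
  have hVpos : 0 < VZ (2 * b * M) z := Pool.Agent.W89.Sv.VZ_pos _ _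
  have hVL : K / (2 * (L * Real.log b)) ≤ VZ (2 * b * M) z := by
    rw [div_le_iff₀ (by positivity)]
    have h8 := mul_le_mul_of_nonneg_left hlogz hVpos.le
    linarith
  set X : ℝ := ((s : ℝ) * t) ^ L with hX
  have hs0 : (0 : ℝ) < s := by exact_mod_cast (by omega : 0 < s)
  have ht0 : (0 : ℝ) < t := by exact_mod_cast (by omega : 0 < t)
  have hX0 : 0 < X := by positivity
  set Sc := (univ : Finset (Fin L → Fin s × Fin t)).filter (fun m => pv b s t L m ≡ h [MOD M]) with hSc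
  have hS := hsieve z hz0 (Fin L → Fin s × Fin t) Sc (pv b s t L) (X / M) (by positivity)
  have hRem : ∑ q ∈ (Icc 1 ⌊(z : ℝ) ^ (11 / 2 : ℝ)⌋₊).filter (fun q => q.Coprime (2 * b * M)),
      (q.divisors.card : ℝ) ^ 2 * |rem Sc (pv b s t L) (X / M) q| ≤ X / (L : ℝ) ^ 3 := by
    refine le_trans ?_ h3
    refine le_trans ?_ (rem_sum (s := s) (t := t) L M ⌊(z : ℝ) ^ (11 / 2 : ℝ)⌋₊
      ⌊(b : ℝ) ^ (κ' * L)⌋₊ hM0 hM ?_)
    · apply sum_le_sum
      intro q hq
      rw [mem_filter] at hq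
      apply mul_le_mul_of_nonneg_left _ (by positivity)
      exact rem_class (by omega) (by omega) L M h q hM hq.2
    · apply Nat.le_floor
      push_cast
      calc ((⌊(z : ℝ) ^ (11 / 2 : ℝ)⌋₊ : ℕ) : ℝ) * M ≤ (b : ℝ) ^ (κ * L) * (b : ℝ) ^ ((κ' - κ) * (L : ℝ)) := by
            apply mul_le_mul _ h8' hMR.le (by positivity)
            exact (Nat.floor_le (by positivity)).trans hzD
        _ = (b : ℝ) ^ (κ' * L) := by
            rw [← Real.rpow_add (by linarith)]
            congr 1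
            ring
  set w : (Fin L → Fin s × Fin t) → ℝ := fun m => wt (2 * b * M) z lam (pv b s t L m) with hw
  set T := Sc.filter (fun m => (pv b s t L m).Coprime (PZ (2 * b * M) z)) with hT
  set B := (univ : Finset (Fin L → Fin s × Fin t)).filter (fun m => ∃ p : ℕ, p.Coprime (2 * b) ∧
      (b : ℝ) ^ (κ / 6 * L) ≤ p ∧ (p : ℝ) ≤ (b : ℝ) ^ (κ * L) ∧ p ^ 2 ∣ pv b s t L m) with hB
  have hD1 : 1 < (z : ℝ) ^ (11 / 2 : ℝ) := Real.one_lt_rpow (by linarith) (by norm_num)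
  have hcp := count_pos T B w (by
    intro m _
    simp only [hw]
    unfold wt
    have h8 : 0 ≤ ∑ p ∈ (En (2 * b * M) z ((z : ℝ) ^ (11 / 2 : ℝ)) 70).filter (fun p => p ∣ pv b s t L m),
        (1 - Real.log p / (86 / 88 * Real.log ((z : ℝ) ^ (11 / 2 : ℝ)))) := by
      apply sum_nonneg
      intro p hp
      have hp' := (mem_filter.1 hp).1
      unfold En at hp'
      rw [mem_filter, mem_PP, Nat.lt_ceil] at hp'
      have e : (((70 : ℕ) : ℝ) + 16) / 88 = 86 / 88 := by norm_num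
      rw [e] at hp'
      have hlD := Real.log_pos hD1
      have h9 : Real.log p ≤ 86 / 88 * Real.log ((z : ℝ) ^ (11 / 2 : ℝ)) := by
        rw [← Real.log_rpow (by linarith : 0 < (z : ℝ) ^ (11 / 2 : ℝ))]
        exact Real.log_le_log (by exact_mod_cast hp'.1.2.1.pos) hp'.1.1.le
      rw [sub_nonneg, div_le_one (by positivity)]
      exact h9
    nlinarith)
  have hsumT : δ * (X / M * VZ (2 * b * M) z) - X / (L : ℝ) ^ 3 ≤ ∑ m ∈ T, w m := by
    refine le_trans ?_ hS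
    linarith
  have hBc : (B.card : ℝ) ≤ X / (L : ℝ) ^ 3 := by
    refine le_trans (le_of_eq ?_) h4
    rw [hB]
  -- lower bound for the number of good `m`
  have hnum : 2 * c * X / L ≤ (((T.filter (fun i => 0 < w i)) \ B).card : ℝ) := by
    refine le_trans ?_ hcp
    have h8 : δ * (X / M * (K / (2 * (L * Real.log b)))) ≤ δ * (X / M * VZ (2 * b * M) z) := by gcongr
    have h9 : δ * (X / M * (K / (2 * (L * Real.log b)))) = 4 * c * X / L := by
      rw [hc]; field_simp; ring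
    have h10 : X / (L : ℝ) ^ 3 ≤ c * X / L := by
      rw [div_le_div_iff₀ (by positivity) hL0]
      have h11 : 16 * (M * Real.log b) / (δ * K) ≤ L := by linarith
      rw [div_le_iff₀ (by positivity)] at h11
      have h12 : 1 ≤ c * L := by
        rw [hc, div_mul_eq_mul_div, one_le_div (by positivity)]
        nlinarith
      have h13 : 1 ≤ c * L ^ 2 := by
        have : c * L ≤ c * L ^ 2 := by
          rw [sq]
          nlinarith [mul_nonneg hc0.le hL0.le]
        linarith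
      calc X * L = X * L * 1 := by ring
        _ ≤ X * L * (c * L ^ 2) := by gcongr
        _ = _ := by ring
    have h14 : 4 * c * X / L - c * X / L - c * X / L = 2 * c * X / L := by ring
    linarith
  -- the palindromes
  refine ⟨(T.filter (fun i => 0 < w i)) \ B, ?_, ?_⟩
  · refine le_trans ?_ hnum
    apply div_le_div_of_nonneg_right _ hL0.le
    have : 0 ≤ c * X := by positivity
    linarith
  · intro m hm
    rw [Finset.mem_sdiff, mem_filter, hT, mem_filter, hSc, mem_filter] at hm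
    obtain ⟨⟨⟨⟨_, hcl⟩, hs'⟩, hwm⟩, hmB⟩ := hm
    obtain ⟨hd1, hd2, hd3, hd4⟩ := (hDig L).1 m
    have hcM : (pv b s t L m).Coprime M := by
      unfold Nat.Coprime
      rw [hcl.gcd_eq]
      exact hhM
    have hg := goodM (r := r) (m0 := 2 * b * M) hz2 (by omega : 0 < pv b s t L m) hd2
      (dvd_mul_right (2 * b) M) (Nat.Coprime.mul_right hd4 hcM) hs' hzD hzη (by
      intro p hp1 hp2 hp3 hp4
      apply hmB
      rw [hB, mem_filter]
      exact ⟨mem_univ _, p, hp1, hp2, hp3, hp4⟩) hl0 hR (by rw [hRd]; linarith) hwm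
    exact ⟨⟨hd1.le, hd2, hd3, hg.1, hg.2⟩, hcl⟩

end Pool.Agent.X262.PAL
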