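import Pool.Agent.X262.PAL.RC1

/-!
# The constants in the weighted sieve and almost prime palindromes in residue classes

Variant of `Pool.Agent.W89.Sv.weighted_sieve` with the constant made explicit (same proof), and the lower bound for
almost prime palindromes in residue classes with the right dependence on the modulus.
-/

set_option autoImplicit false

namespace Pool.Agent.X262.PAL

open Finset Filter Topology Pool.Agent.W89.Sv

/-- the weighted sieve -/
theorem weighted_sieveD (m : ℕ) (hm : m ≠ 0) (h2m : 2 ∣ m) {lam : ℝ} (hl0 : 0 ≤ lam) (hl1 : lam ≤ 1)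
    (hlam : lam * (1174 / 1000) < 994 / 1000) : ∃ z0 : ℕ, ∀ z : ℕ, z0 ≤ z →
    ∀ (ι : Type) (S : Finset ι) (v : ι → ℕ) (X : ℝ), 0 ≤ X →
    (994 / 1000 - lam * (1174 / 1000)) / 3 * (X * VZ m z) - ∑ q ∈ (Icc 1 ⌊(z : ℝ) ^ (11 / 2 : ℝ)⌋₊).filter (fun q => q.Coprime m),
      (q.divisors.card : ℝ) ^ 2 * |rem S v X q| ≤
      ∑ i ∈ S.filter (fun i => (v i).Coprime (PZ m z)), wt m z lam (v i) := by
  set δ : ℝ := (994 / 1000 - lam * (1174 / 1000)) / 3 with hδ
  have hδ0 : 0 < δ := by rw [hδ]; linarith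
  obtain ⟨c, -, hL, -⟩ := final_consts m hm h2m
  obtain ⟨z1, hz1⟩ := hL δ hδ0
  obtain ⟨z2, hz2⟩ := weighted_upper m hm h2m δ hδ0
  refine ⟨max (max z1 z2) 2, fun z hz ι S v X hX => ?_⟩
  have hzz1 : z1 ≤ z := (le_max_left _ _).trans ((le_max_left _ _).trans hz)
  have hzz2 : z2 ≤ z := (le_max_right _ _).trans ((le_max_left _ _).trans hz)
  have hz2' : 2 ≤ z := (le_max_right _ _).trans hz
  have hzR : (2 : ℝ) ≤ z := by exact_mod_cast hz2'
  have hU := hz2 z hzz2 ι S v X hX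
  set D : ℝ := (z : ℝ) ^ (11 / 2 : ℝ) with hDd
  have hD1 : 1 ≤ D := Real.one_le_rpow (by linarith) (by norm_num)
  have hLo := hz1 z hzz1 D (by
    rw [hDd]
    norm_num) ι S v X hX 1 one_pos (Nat.coprime_one_left _)
  have hrem : RR m S v X 1 z D + ∑ p ∈ En m z D 70, RR m S v X p z (D / p) ≤
      ∑ q ∈ (Icc 1 ⌊D⌋₊).filter (fun q => q.Coprime m), (q.divisors.card : ℝ) ^ 2 * |rem S v X q| :=
    total_rem m z hD1 S v X _
  have hV := VZ_pos m z
  -- exchange of the sums
  have hex : ∑ i ∈ S.filter (fun i => (v i).Coprime (PZ m z)), wt m z lam (v i) =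
      sift m S v 1 z - lam * ∑ p ∈ En m z D 70, (1 - Real.log p / (86 / 88 * Real.log D)) * sift m S v p z := by
    unfold wt
    rw [← hDd, sum_sub_distrib, ← mul_sum]
    congr 1
    · unfold sift
      simp
    · congr 1
      simp_rw [sum_filter (fun p => p ∣ v _)]
      rw [sum_comm]
      apply sum_congr rfl
      intro p _
      rw [← sum_filter, sum_const, nsmul_eq_mul, mul_comm]
      congr 1
      unfold sift
      rw [filter_filter]
      congr 2
      ext i
      simp only [mem_filter]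
      tauto
  rw [hex]
  have h1 : X / ((1 : ℕ) : ℝ) * VZ m z = X * VZ m z := by simp
  rw [h1] at hLo
  have h2 := mul_le_mul_of_nonneg_left hU hl0
  have h3 : 0 ≤ ∑ p ∈ En m z D 70, RR m S v X p z (D / p) := sum_nonneg fun p _ => RR_nonneg m S v X p z _
  have h4 : lam * ∑ p ∈ En m z D 70, RR m S v X p z (D / p) ≤ ∑ p ∈ En m z D 70, RR m S v X p z (D / p) := by
    have := mul_le_mul_of_nonneg_right hl1 h3
    linarith
  have h5 : 0 ≤ X * VZ m z := by positivity
  have h6 : δ * (X * VZ m z) ≤ (994 / 1000 - δ) * (X * VZ m z) -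
      lam * ((1174 / 1000 + δ) * (X * VZ m z)) := by
    have h7 : δ ≤ (994 / 1000 - δ) - lam * (1174 / 1000 + δ) := by
      have h8 : lam * δ ≤ δ := by
        have := mul_le_mul_of_nonneg_right hl1 hδ0.le
        linarith
      have h9 : 3 * δ = 994 / 1000 - lam * (1174 / 1000) := by rw [hδ]; ring
      linarith
    have h10 := mul_le_mul_of_nonneg_right h7 h5
    linarith
  linarith





open Pool.Agent.W89.PW Pool.Agent.W261.PWBV Pool.Agent.W139.PX
open Pool.Agent.H476R2.Pal (omega_bound count_pos)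
open Pool.Agent.Y816.PS

lemma totient_eq_cM (m : ℕ) : (m.totient : ℝ) = m * cM m := by
  have h := Nat.totient_eq_mul_prod_factors m
  have h2 : ((m.totient : ℚ) : ℝ) = ((m * ∏ p ∈ m.primeFactors, (1 - (p : ℚ)⁻¹) : ℚ) : ℝ) := by rw [h]
  push_cast at h2
  rw [h2]
  unfold cM
  congr 1
  apply prod_congr rfl
  intro p _
  rw [one_div]

lemma cM_mul {a c : ℕ} (h : a.Coprime c) : cM (a * c) = cM a * cM c := by
  unfold cM
  rw [h.primeFactors_mul, prod_union h.disjoint_primeFactors]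

lemma const_eq (b M : ℕ) (hb : 0 < b) (hM0 : 0 < M) (hM : M.Coprime (2 * b)) (δ : ℝ) (hlb : 0 < Real.log b) :
    δ * cV (2 * b) / (8 * Real.log b) / M.totient = δ * cV (2 * b * M) / (8 * (M * Real.log b)) := by
  unfold cV
  rw [cM_mul hM.symm, totient_eq_cM M]
  have h1 := cM_pos (2 * b)
  have h2 := cM_pos M
  have h3 : (0 : ℝ) < M := by exact_mod_cast hM0
  have h4 : (8 : ℝ) * Real.log b ≠ 0 := by positivity
  field_simp

/-- many digit vectors give palindromes in a residue class with at most `r` prime factors -/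
theorem almostGD {b s t r : ℕ} (hb : 2 ≤ b) (hs : 1 ≤ s) (ht : 1 ≤ t) (hbst : s + t = b + 1) {κ κ' lam : ℝ}
    (hκ0 : 0 < κ) (hκ1 : κ < 1) (hκκ' : κ < κ')
    (hLv : ∀ᶠ L : ℕ in atTop, ∑ q ∈ (Icc 1 ⌊(b : ℝ) ^ (κ' * L)⌋₊).filter (fun q => q.Coprime (2 * b)),
      (q.divisors.card : ℝ) ^ 2 * Es b s t L q ≤ ((s : ℝ) * t) ^ L / (L : ℝ) ^ 3)
    (hSq : SqW b s t κ) (hl0 : 0 < lam) (hl1 : lam ≤ 1)
    (hlam : lam * (1174 / 1000) < 994 / 1000) (hr : 1 / lam + 88 / (43 * κ) < r + 1) :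
    ∃ c : ℝ, 0 < c ∧ ∀ M : ℕ, 0 < M → M.Coprime (2 * b) →
    ∀ᶠ L : ℕ in atTop, ∀ h : ℕ, h.Coprime M → ∃ G : Finset (Fin L → Fin s × Fin t),
      c / M.totient * ((s : ℝ) * t) ^ L / L ≤ G.card ∧
      ∀ m ∈ G, PlP b r κ L (pv b s t L m) ∧ pv b s t L m ≡ h [MOD M] := by
  classical
  have hDig := fun L => dig2 (s := s) (t := t) L hb hbst
  have hlb00 : 0 < Real.log b := Real.log_pos (by exact_mod_cast (by omega : 1 < b))
  set δ : ℝ := (994 / 1000 - lam * (1174 / 1000)) / 3 with hδ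
  have hδ0 : 0 < δ := by rw [hδ]; linarith
  refine ⟨δ * cV (2 * b) / (8 * Real.log b), div_pos (mul_pos hδ0 (cV_pos _)) (by positivity), ?_⟩
  intro M hM0 hM
  have hm00 : 2 * b * M ≠ 0 := by
    have := Nat.mul_pos (by omega : 0 < 2 * b) hM0
    omega
  obtain ⟨z0, hsieve⟩ := weighted_sieveD (2 * b * M) hm00
    (Dvd.dvd.mul_right (dvd_mul_right 2 b) M) hl0.le hl1 hlam
  rw [← hδ] at hsieve
  have hbR : (2 : ℝ) ≤ b := by exact_mod_cast hb
  have hMR : (0 : ℝ) < M := by exact_mod_cast hM0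
  have hlb0 : 0 < Real.log b := Real.log_pos (by linarith)
  set K : ℝ := cV (2 * b * M) with hK
  have hK0 : 0 < K := cV_pos _
  set R : ℝ := (r : ℝ) + 1 - 1 / lam with hRd
  have hRκ : 0 < R * (86 / 88) * κ - 2 := by
    have h1 : 88 / (43 * κ) < R := by rw [hRd]; linarith
    rw [div_lt_iff₀ (by positivity)] at h1
    linarith
  have hR0 : 0 < R := by
    have h1 : 0 < R * (86 / 88) * κ := by linarith
    by_contra h
    push Not at h
    have : R * (86 / 88) * κ ≤ 0 := by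
      have h2 : 0 ≤ (86 / 88 : ℝ) * κ := by positivity
      nlinarith
    linarith
  set c : ℝ := δ * K / (8 * (M * Real.log b)) with hc
  have hc0 : 0 < c := by positivity
  have hcc : δ * cV (2 * b) / (8 * Real.log b) / M.totient = c := by
    rw [hc, hK]
    exact const_eq b M (by omega) hM0 hM δ hlb00
  rw [hcc]
  have e1 : ∀ᶠ L : ℕ in atTop, K / 2 < VZ (2 * b * M) (zz b κ L) * Real.log (zz b κ L : ℝ) :=
    ((V_lim (2 * b * M) hm00).comp (tendsto_zz (by omega) hκ0)).eventually_const_lt (by linarith)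
  have e2 : ∀ᶠ L : ℕ in atTop, max z0 2 ≤ zz b κ L := (tendsto_zz (by omega) hκ0).eventually_ge_atTop _
  have e4 := hSq (κ / 6) (by positivity) 3
  have e5 : ∀ᶠ L : ℕ in atTop, 16 * (M * Real.log b) / (δ * K) + 1 ≤ (L : ℝ) :=
    tendsto_natCast_atTop_atTop.eventually_ge_atTop _
  have e6 : ∀ᶠ L : ℕ in atTop, 2 ≤ (b : ℝ) ^ (κ * (2 / 11 - 1 / 6) * (L : ℝ)) :=
    (tendsto_bpow (by omega) (a := κ * (2 / 11 - 1 / 6)) (by positivity)).eventually_ge_atTop 2
  have e7 : ∀ᶠ L : ℕ in atTop, 3 * Real.log b + R * (86 / 88) * (11 / 2 * Real.log 2) ≤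
      (R * (86 / 88) * κ - 2) * Real.log b * (L : ℝ) :=
    ((tendsto_natCast_atTop_atTop (R := ℝ)).const_mul_atTop (by positivity)).eventually_ge_atTop _
  have e8 : ∀ᶠ L : ℕ in atTop, (M : ℝ) ≤ (b : ℝ) ^ ((κ' - κ) * (L : ℝ)) :=
    (tendsto_bpow (by omega) (a := κ' - κ) (by linarith)).eventually_ge_atTop (M : ℝ)
  filter_upwards [e1, e2, hLv, e4, e5, e6, e7, e8] with L h1 h2 h3 h4 h5 h6 h7 h8'
  intro h hhM
  have hL1 : (1 : ℝ) ≤ L := by
    have : 0 ≤ 16 * (M * Real.log b) / (δ * K) := by positivity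
    linarith
  have hL0 : (0 : ℝ) < L := by linarith
  set z := zz b κ L with hz
  have hz0 : z0 ≤ z := (le_max_left _ _).trans h2
  have hz2 : 2 ≤ z := (le_max_right _ _).trans h2
  have hzR : (2 : ℝ) ≤ z := by exact_mod_cast hz2
  have hzle : (z : ℝ) ≤ (b : ℝ) ^ (κ * L * (2 / 11)) := zz_le b κ L
  have hzge : (b : ℝ) ^ (κ * L * (2 / 11)) / 2 ≤ z := by
    have h8 : (b : ℝ) ^ (κ * L * (2 / 11)) < z + 1 := Nat.lt_floor_add_one _
    linarith
  have hzη : (b : ℝ) ^ (κ / 6 * L) < z := by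
    have e : (b : ℝ) ^ (κ * L * (2 / 11)) = (b : ℝ) ^ (κ / 6 * L) * (b : ℝ) ^ (κ * (2 / 11 - 1 / 6) * (L : ℝ)) := by
      rw [← Real.rpow_add (by linarith)]
      congr 1
      ring
    have h8 : (b : ℝ) ^ (κ * L * (2 / 11)) < z + 1 := Nat.lt_floor_add_one _
    have h9 : 1 < (b : ℝ) ^ (κ / 6 * L) := Real.one_lt_rpow (by linarith) (by positivity)
    have h10 : (b : ℝ) ^ (κ / 6 * L) * 2 ≤ (b : ℝ) ^ (κ * L * (2 / 11)) := by
      rw [e]
      exact mul_le_mul_of_nonneg_left h6 (by positivity)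
    linarith
  have hzD : (z : ℝ) ^ (11 / 2 : ℝ) ≤ (b : ℝ) ^ (κ * L) := zz_pow_le κ L
  have hlogz : Real.log z ≤ L * Real.log b := by
    have h8 := Real.log_le_log (by linarith) hzle
    rw [Real.log_rpow (by linarith)] at h8
    refine h8.trans ?_
    apply mul_le_mul_of_nonneg_right _ hlb0.le
    have : κ * L * (2 / 11) ≤ 1 * L * 1 := by
      apply mul_le_mul _ (by norm_num) (by norm_num) (by positivity)
      exact mul_le_mul_of_nonneg_right hκ1.le hL0.le
    linarith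
  have hR : (2 * (L : ℝ) + 3) * Real.log b ≤ R * (86 / 88 * Real.log ((z : ℝ) ^ (11 / 2 : ℝ))) := by
    have h8 := Real.log_le_log (by positivity) hzge
    rw [Real.log_div (by positivity) (by norm_num), Real.log_rpow (by linarith)] at h8
    rw [Real.log_rpow (by linarith)]
    have h9 : R * (86 / 88) * (11 / 2) * (κ * L * (2 / 11) * Real.log b - Real.log 2) ≤
        R * (86 / 88) * (11 / 2) * Real.log z := mul_le_mul_of_nonneg_left h8 (by positivity)
    have h10 : R * (86 / 88) * (11 / 2) * (κ * L * (2 / 11) * Real.log b - Real.log 2) =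
        (R * (86 / 88) * κ - 2) * Real.log b * L + 2 * L * Real.log b - R * (86 / 88) * (11 / 2 * Real.log 2) := by
      ring
    rw [h10] at h9
    linarith
  have hVpos : 0 < VZ (2 * b * M) z := Pool.Agent.W89.Sv.VZ_pos _ _
  have hVL : K / (2 * (L * Real.log b)) ≤ VZ (2 * b * M) z := by
    rw [div_le_iff₀ (by positivity)]
    have h8 := mul_le_mul_of_nonneg_left hlogz hVpos.le
    linarith
  set X : ℝ := ((s : ℝ) * t) ^ L with hX
  have hs0 : (0 : ℝ) < s := by exact_mod_cast (by omega : 0 < s)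
  have ht0 : (0 : ℝ) < t := by exact_mod_cast (by omega : 0 < t)
  have hX0 : 0 < X := by positivity
  set Sc := (univ : Finset (Fin L → Fin s × Fin t)).filter (fun m => pv b s t L m ≡ h [MOD M]) with hSc
  have hS := hsieve z hz0 (Fin L → Fin s × Fin t) Sc (pv b s t L) (X / M) (by positivity)
  have hRem : ∑ q ∈ (Icc 1 ⌊(z : ℝ) ^ (11 / 2 : ℝ)⌋₊).filter (fun q => q.Coprime (2 * b * M)),
      (q.divisors.card : ℝ) ^ 2 * |rem Sc (pv b s t L) (X / M) q| ≤ X / (L : ℝ) ^ 3 := by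
    refine le_trans ?_ h3
    refine le_trans ?_ (rem_sum (s := s) (t := t) L M ⌊(z : ℝ) ^ (11 / 2 : ℝ)⌋₊
      ⌊(b : ℝ) ^ (κ' * L)⌋₊ hM0 hM ?_)
    · apply sum_le_sum
      intro q hq
      rw [mem_filter] at hq
      apply mul_le_mul_of_nonneg_left _ (by positivity)
      exact rem_class (by omega) (by omega) L M h q hM hq.2
    · apply Nat.le_floor
      push_cast
      calc ((⌊(z : ℝ) ^ (11 / 2 : ℝ)⌋₊ : ℕ) : ℝ) * M ≤ (b : ℝ) ^ (κ * L) * (b : ℝ) ^ ((κ' - κ) * (L : ℝ)) := by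
            apply mul_le_mul _ h8' hMR.le (by positivity)
            exact (Nat.floor_le (by positivity)).trans hzD
        _ = (b : ℝ) ^ (κ' * L) := by
            rw [← Real.rpow_add (by linarith)]
            congr 1
            ring
  set w : (Fin L → Fin s × Fin t) → ℝ := fun m => wt (2 * b * M) z lam (pv b s t L m) with hw
  set T := Sc.filter (fun m => (pv b s t L m).Coprime (PZ (2 * b * M) z)) with hT
  set B := (univ : Finset (Fin L → Fin s × Fin t)).filter (fun m => ∃ p : ℕ, p.Coprime (2 * b) ∧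
      (b : ℝ) ^ (κ / 6 * L) ≤ p ∧ (p : ℝ) ≤ (b : ℝ) ^ (κ * L) ∧ p ^ 2 ∣ pv b s t L m) with hB
  have hD1 : 1 < (z : ℝ) ^ (11 / 2 : ℝ) := Real.one_lt_rpow (by linarith) (by norm_num)
  have hcp := count_pos T B w (by
    intro m _
    simp only [hw]
    unfold wt
    have h8 : 0 ≤ ∑ p ∈ (En (2 * b * M) z ((z : ℝ) ^ (11 / 2 : ℝ)) 70).filter (fun p => p ∣ pv b s t L m),
        (1 - Real.log p / (86 / 88 * Real.log ((z : ℝ) ^ (11 / 2 : ℝ)))) := by
      apply sum_nonneg
      intro p hp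
      have hp' := (mem_filter.1 hp).1
      unfold En at hp'
      rw [mem_filter, mem_PP, Nat.lt_ceil] at hp'
      have e : (((70 : ℕ) : ℝ) + 16) / 88 = 86 / 88 := by norm_num
      rw [e] at hp'
      have hlD := Real.log_pos hD1
      have h9 : Real.log p ≤ 86 / 88 * Real.log ((z : ℝ) ^ (11 / 2 : ℝ)) := by
        rw [← Real.log_rpow (by linarith : 0 < (z : ℝ) ^ (11 / 2 : ℝ))]
        exact Real.log_le_log (by exact_mod_cast hp'.1.2.1.pos) hp'.1.1.le
      rw [sub_nonneg, div_le_one (by positivity)]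
      exact h9
    nlinarith)
  have hsumT : δ * (X / M * VZ (2 * b * M) z) - X / (L : ℝ) ^ 3 ≤ ∑ m ∈ T, w m := by
    refine le_trans ?_ hS
    linarith
  have hBc : (B.card : ℝ) ≤ X / (L : ℝ) ^ 3 := by
    refine le_trans (le_of_eq ?_) h4
    rw [hB]
  -- lower bound for the number of good `m`
  have hnum : 2 * c * X / L ≤ (((T.filter (fun i => 0 < w i)) \ B).card : ℝ) := by
    refine le_trans ?_ hcp
    have h8 : δ * (X / M * (K / (2 * (L * Real.log b)))) ≤ δ * (X / M * VZ (2 * b * M) z) := by gcongr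
    have h9 : δ * (X / M * (K / (2 * (L * Real.log b)))) = 4 * c * X / L := by
      rw [hc]; field_simp; ring
    have h10 : X / (L : ℝ) ^ 3 ≤ c * X / L := by
      rw [div_le_div_iff₀ (by positivity) hL0]
      have h11 : 16 * (M * Real.log b) / (δ * K) ≤ L := by linarith
      rw [div_le_iff₀ (by positivity)] at h11
      have h12 : 1 ≤ c * L := by
        rw [hc, div_mul_eq_mul_div, one_le_div (by positivity)]
        nlinarith
      have h13 : 1 ≤ c * L ^ 2 := by
        have : c * L ≤ c * L ^ 2 := by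
          rw [sq]
          nlinarith [mul_nonneg hc0.le hL0.le]
        linarith
      calc X * L = X * L * 1 := by ring
        _ ≤ X * L * (c * L ^ 2) := by gcongr
        _ = _ := by ring
    have h14 : 4 * c * X / L - c * X / L - c * X / L = 2 * c * X / L := by ring
    linarith
  -- the palindromes
  refine ⟨(T.filter (fun i => 0 < w i)) \ B, ?_, ?_⟩
  · refine le_trans ?_ hnum
    apply div_le_div_of_nonneg_right _ hL0.le
    have : 0 ≤ c * X := by positivity
    linarith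
  · intro m hm
    rw [Finset.mem_sdiff, mem_filter, hT, mem_filter, hSc, mem_filter] at hm
    obtain ⟨⟨⟨⟨_, hcl⟩, hs'⟩, hwm⟩, hmB⟩ := hm
    obtain ⟨hd1, hd2, hd3, hd4⟩ := (hDig L).1 m
    have hcM : (pv b s t L m).Coprime M := by
      unfold Nat.Coprime
      rw [hcl.gcd_eq]
      exact hhM
    have hg := goodM (r := r) (m0 := 2 * b * M) hz2 (by omega : 0 < pv b s t L m) hd2
      (dvd_mul_right (2 * b) M) (Nat.Coprime.mul_right hd4 hcM) hs' hzD hzη (by
      intro p hp1 hp2 hp3 hp4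
      apply hmB
      rw [hB, mem_filter]
      exact ⟨mem_univ _, p, hp1, hp2, hp3, hp4⟩) hl0 hR (by rw [hRd]; linarith) hwm
    exact ⟨⟨hd1.le, hd2, hd3, hg.1, hg.2⟩, hcl⟩



end Pool.Agent.X262.PAL
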